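import Pool.Agent.Y792.FL.Sum

/-! Limits of the mean squares along ultrafilters. -/

set_option autoImplicit false

namespace Pool.Agent.Y792.FL

open Complex Filter Topology ComplexConjugate Pool.Agent.W540.BE Pool.Agent.H341R2
  Pool.Agent.TH553.RS

/-- `log (1 / ε)` -/
noncomputable def lg (ε : ℝ) : ℝ := Real.log (1 / ε)

theorem lg_tendsto : Tendsto lg (𝓝[>] 0) atTop := by
  unfold lg
  have h : Tendsto (fun ε : ℝ => 1 / ε) (𝓝[>] 0) atTop := by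
    simpa [one_div] using tendsto_inv_nhdsGT_zero (𝕜 := ℝ)
  exact Real.tendsto_log_atTop.comp h

variable {X κ : Type*} [DecidableEq κ]

/-- the data -/
structure Fam (W : ℝ → X → ℝ) (T : Finset κ) (a : X → ℂ) (u : κ → X → ℂ) (N : ℝ)
    (s : κ → ℝ → ℝ) : Prop where
  nn : ∀ ε, 0 < ε → ∀ x, 0 ≤ W ε x
  a2 : ∀ ε, 0 < ε → L2 (W ε) a
  u2 : ∀ ε, 0 < ε → ∀ p ∈ T, L2 (W ε) (u p)
  up : ∀ η > 0, ∀ᶠ ε : ℝ in 𝓝[>] 0, Q (W ε) a / lg ε ≤ N + η
  gr : ∀ p ∈ T, ∀ r ∈ T, Tendsto (fun ε => Bl (W ε) (u p) (u r) / lg ε) (𝓝[>] 0)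
    (𝓝 (if p = r then 1 else 0))
  sz : ∀ p ∈ T, Tendsto (fun ε => Bl (W ε) a (u p) / lg ε - s p ε) (𝓝[>] 0) (𝓝 0)

variable {W : ℝ → X → ℝ} {T : Finset κ} {a : X → ℂ} {u : κ → X → ℂ} {N : ℝ} {s : κ → ℝ → ℝ}

theorem Bl_self (w : X → ℝ) (f : X → ℂ) : Bl w f f = Q w f := by
  unfold Bl Q
  refine tsum_congr fun x => ?_
  rw [Complex.mul_conj, Complex.ofReal_re, Complex.normSq_eq_norm_sq]

theorem Fam.ultra (F : Fam W T a u N s) {U : Ultrafilter ℝ} (hU : (U : Filter ℝ) ≤ 𝓝[>] 0) :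
    ∃ (Y : κ → ℝ) (N' : ℝ), 0 ≤ N' ∧ N' ≤ N ∧ (∀ p ∈ T, Tendsto (s p) U (𝓝 (Y p))) ∧
      Tendsto (fun ε => Q (W ε) a / lg ε) U (𝓝 N') ∧
      ∀ c : κ → ℝ, Tendsto (fun ε => Q (W ε) (fun x => a x + ∑ p ∈ T, (c p : ℂ) * u p x) / lg ε) U
        (𝓝 (N' + 2 * (∑ p ∈ T, c p * Y p) + ∑ p ∈ T, c p ^ 2)) := by
  have hpos : ∀ᶠ ε : ℝ in (U : Filter ℝ), 0 < ε ∧ 0 < lg ε :=
    hU ((Filter.eventually_iff.2 self_mem_nhdsWithin).and (lg_tendsto.eventually_gt_atTop 0))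
  have hq : ∀ᶠ ε : ℝ in (U : Filter ℝ), |Q (W ε) a / lg ε| ≤ N + 1 := by
    filter_upwards [hpos, hU (F.up 1 one_pos)] with ε h1 h2
    rw [abs_of_nonneg (div_nonneg (Q_nonneg (F.nn ε h1.1) a) h1.2.le)]
    exact h2
  obtain ⟨N', hN'⟩ := exists_lim U hq
  have hB : ∀ p, ∃ y, p ∈ T → Tendsto (fun ε => Bl (W ε) a (u p) / lg ε) U (𝓝 y) := by
    intro p
    by_cases hp : p ∈ T
    · have h3 := (F.gr p hp p hp).mono_left hU
      rw [if_pos rfl] at h3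
      obtain ⟨y, hy⟩ := exists_lim U (f := fun ε => Bl (W ε) a (u p) / lg ε) (C := N + 1 + 2) (by
        filter_upwards [hpos, hq, h3.eventually_lt_const (by norm_num : (1 : ℝ) < 2)]
          with ε h1 h2 h4
        rw [Bl_self] at h4
        rw [abs_div, abs_of_pos h1.2]
        have h5 := abs_Bl_le (F.nn ε h1.1) (F.a2 ε h1.1) (F.u2 ε h1.1 p hp)
        have h6 : |Bl (W ε) a (u p)| / lg ε ≤ (Q (W ε) a + Q (W ε) (u p)) / lg ε :=
          div_le_div_of_nonneg_right h5 h1.2.le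
        rw [add_div] at h6
        have h7 := (abs_le.1 h2).2
        linarith)
      exact ⟨y, fun _ => hy⟩
    · exact ⟨0, fun h => absurd h hp⟩
  choose Y hY using hB
  refine ⟨Y, N', ?_, ?_, fun p hp => ?_, hN', fun c => ?_⟩
  · refine ge_of_tendsto hN' (hpos.mono fun ε h => ?_)
    exact div_nonneg (Q_nonneg (F.nn ε h.1) a) h.2.le
  · refine le_of_forall_pos_le_add fun η hη => ?_
    exact le_of_tendsto hN' (hU (F.up η hη))
  · have h1 := (hY p hp).sub ((F.sz p hp).mono_left hU)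
    rw [sub_zero] at h1
    exact h1.congr fun ε => by ring
  · have h1 : Tendsto (fun ε => Q (W ε) a / lg ε +
        2 * (∑ p ∈ T, c p * (Bl (W ε) a (u p) / lg ε)) +
        ∑ p ∈ T, ∑ r ∈ T, (c p * c r) * (Bl (W ε) (u p) (u r) / lg ε)) U
        (𝓝 (N' + 2 * (∑ p ∈ T, c p * Y p) +
          ∑ p ∈ T, ∑ r ∈ T, (c p * c r) * (if p = r then (1 : ℝ) else 0))) := by
      refine (hN'.add ((tendsto_finsetSum _ fun p hp => (hY p hp).const_mul _).const_mul 2)).add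
        (tendsto_finsetSum _ fun p hp => tendsto_finsetSum _ fun r hr => ?_)
      exact ((F.gr p hp r hr).mono_left hU).const_mul _
    have h2 : (∑ p ∈ T, ∑ r ∈ T, (c p * c r) * (if p = r then (1 : ℝ) else 0)) =
        ∑ p ∈ T, c p ^ 2 := by
      refine Finset.sum_congr rfl fun p hp => ?_
      simp only [mul_ite, mul_one, mul_zero]
      rw [Finset.sum_ite_eq, if_pos hp, sq]
    rw [h2] at h1
    refine h1.congr' ?_
    filter_upwards [hpos] with ε h3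
    rw [Q_expand (F.nn ε h3.1) T (F.a2 ε h3.1) (F.u2 ε h3.1) c, add_div, add_div,
      Finset.mul_sum, Finset.mul_sum, Finset.sum_div, Finset.sum_div]
    congr 1
    · congr 1
      exact Finset.sum_congr rfl fun p _ => by ring
    · refine Finset.sum_congr rfl fun p _ => ?_
      rw [Finset.sum_div]
      exact Finset.sum_congr rfl fun r _ => by ring

/-- **Bessel's inequality** -/
theorem Fam.bessel (F : Fam W T a u N s) {η : ℝ} (hη : 0 < η) :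
    ∀ᶠ ε : ℝ in 𝓝[>] 0, ∑ p ∈ T, s p ε ^ 2 ≤ N + η := by
  refine eventually_of_ultra fun U hU => ?_
  obtain ⟨Y, N', h0, h1, h2, h3, h4⟩ := F.ultra hU
  have hpos : ∀ᶠ ε : ℝ in (U : Filter ℝ), 0 < ε ∧ 0 < lg ε :=
    hU ((Filter.eventually_iff.2 self_mem_nhdsWithin).and (lg_tendsto.eventually_gt_atTop 0))
  have h5 := ge_of_tendsto (h4 fun p => -Y p) (b := 0) (hpos.mono fun ε h =>
    div_nonneg (Q_nonneg (F.nn ε h.1) _) h.2.le)
  have h6 : ∑ p ∈ T, Y p ^ 2 ≤ N := by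
    have e1 : ∑ p ∈ T, (-Y p) * Y p = -∑ p ∈ T, Y p ^ 2 := by
      rw [← Finset.sum_neg_distrib]
      exact Finset.sum_congr rfl fun p _ => by ring
    have e2 : ∑ p ∈ T, (-Y p) ^ 2 = ∑ p ∈ T, Y p ^ 2 :=
      Finset.sum_congr rfl fun p _ => by ring
    rw [e1, e2] at h5
    linarith
  have h7 : Tendsto (fun ε => ∑ p ∈ T, s p ε ^ 2) U (𝓝 (∑ p ∈ T, Y p ^ 2)) :=
    tendsto_finsetSum _ fun p hp => (h2 p hp).pow 2
  exact (h7.eventually_lt_const (by linarith)).mono fun ε h => h.le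

/-- Bessel's inequality for limits -/
theorem Fam.bessel_lim (F : Fam W T a u N s) {m : κ → ℝ}
    (hm : ∀ p ∈ T, Tendsto (s p) (𝓝[>] 0) (𝓝 (-m p))) : ∑ p ∈ T, m p ^ 2 ≤ N := by
  have h1 : Tendsto (fun ε => ∑ p ∈ T, s p ε ^ 2) (𝓝[>] 0) (𝓝 (∑ p ∈ T, (-m p) ^ 2)) :=
    tendsto_finsetSum _ fun p hp => (hm p hp).pow 2
  have e : ∑ p ∈ T, (-m p) ^ 2 = ∑ p ∈ T, m p ^ 2 := Finset.sum_congr rfl fun p _ => by ring
  rw [e] at h1
  refine le_of_forall_pos_le_add fun η hη => ?_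
  exact le_of_tendsto h1 (F.bessel hη)

/-- Parseval: the mean square of the remainder -/
theorem Fam.parseval (F : Fam W T a u N s) {m : κ → ℝ}
    (hm : ∀ p ∈ T, Tendsto (s p) (𝓝[>] 0) (𝓝 (-m p)))
    (hN : Tendsto (fun ε => Q (W ε) a / lg ε) (𝓝[>] 0) (𝓝 N)) :
    Tendsto (fun ε => Q (W ε) (fun x => a x + ∑ p ∈ T, (m p : ℂ) * u p x) / lg ε) (𝓝[>] 0)
      (𝓝 (N - ∑ p ∈ T, m p ^ 2)) := by
  refine tendsto_of_ultra fun U hU => ?_
  obtain ⟨Y, N', h0, h1, h2, h3, h4⟩ := F.ultra hU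
  have e1 : N' = N := tendsto_nhds_unique h3 (hN.mono_left hU)
  have e2 : ∀ p ∈ T, Y p = -m p := fun p hp =>
    tendsto_nhds_unique (h2 p hp) ((hm p hp).mono_left hU)
  have h5 := h4 m
  have e3 : N' + 2 * (∑ p ∈ T, m p * Y p) + ∑ p ∈ T, m p ^ 2 = N - ∑ p ∈ T, m p ^ 2 := by
    have e4 : ∑ p ∈ T, m p * Y p = -∑ p ∈ T, m p ^ 2 := by
      rw [← Finset.sum_neg_distrib]
      exact Finset.sum_congr rfl fun p hp => by rw [e2 p hp]; ring
    rw [e1, e4]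
    ring
  rw [e3] at h5
  exact h5

/-- one function: the size is smaller than one if no `a ± u` is small in the mean -/
theorem Fam.strict (F : Fam W T a u 1 s) {p : κ} (hp : p ∈ T) {c : ℝ} (hc : 0 < c)
    (h : ∀ σ : ℝ, σ ^ 2 = 1 → ∀ᶠ ε : ℝ in 𝓝[>] 0,
      c ≤ Q (W ε) (fun x => a x + (σ : ℂ) * u p x) / lg ε) :
    ∀ᶠ ε : ℝ in 𝓝[>] 0, |s p ε| ≤ 1 - c / 4 := by
  refine eventually_of_ultra fun U hU => ?_
  obtain ⟨Y, N', h0, h1, h2, h3, h4⟩ := F.ultra hU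
  have key : ∀ σ : ℝ, σ ^ 2 = 1 → c ≤ N' + 2 * (σ * Y p) + 1 := by
    intro σ hσ
    have h5 := h4 fun r => if r = p then σ else 0
    have e1 : ∑ r ∈ T, (if r = p then σ else 0) * Y r = σ * Y p := by
      simp only [ite_mul, zero_mul]
      rw [Finset.sum_ite_eq', if_pos hp]
    have e2 : ∑ r ∈ T, (if r = p then σ else 0) ^ 2 = 1 := by
      have : ∀ r, (if r = p then σ else 0) ^ 2 = if r = p then (1 : ℝ) else 0 := by
        intro r
        split_ifs <;> simp [hσ]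
      simp only [this]
      rw [Finset.sum_ite_eq', if_pos hp]
    have e3 : ∀ x, ∑ r ∈ T, (((if r = p then σ else 0 : ℝ)) : ℂ) * u r x = (σ : ℂ) * u p x := by
      intro x
      rw [Finset.sum_eq_single_of_mem p hp (fun r _ hr => by rw [if_neg hr]; simp), if_pos rfl]
    rw [e1, e2] at h5
    simp only [e3] at h5
    exact ge_of_tendsto h5 (hU (h σ hσ))
  have k1 := key 1 (by norm_num)
  have k2 := key (-1) (by norm_num)
  have h6 : |Y p| ≤ 1 - c / 2 := by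
    rw [abs_le]
    constructor <;> linarith
  have h7 := (h2 p hp).abs
  exact (h7.eventually_lt_const (by linarith : |Y p| < 1 - c / 4)).mono fun ε h => h.le

end Pool.Agent.Y792.FL
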