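import Pool.Agent.Y792.FL.Lim
import Pool.Agent.W540.BE.Size

/-! The Euler product as an exponential of a sum over prime powers. -/

set_option autoImplicit false

namespace Pool.Agent.Y792.FL

open Complex Filter Topology ComplexConjugate Pool.Agent.W540.BE Pool.Agent.H341R2 Polynomial

set_option linter.unusedSectionVars false

variable {P : Type*} [DecidableEq P] {N : P → ℕ}

/-- power sums -/
noncomputable def pw {n : ℕ} (γ : Fin n → ℂ) (k : ℕ) : ℂ := ∑ j, γ j ^ k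

variable (N) in
/-- the weights -/
noncomputable def wt (σ : ℝ) (x : P × ℕ) : ℝ := (N x.1 : ℝ) ^ (-((x.2 + 1) * σ)) / (x.2 + 1)

variable (N) in
/-- the coefficients -/
noncomputable def coef {n : ℕ} (S : Finset P) (γ : P → Fin n → ℂ) (τ : ℝ) (x : P × ℕ) : ℂ :=
  if x.1 ∈ S then 0 else pw (γ x.1) (x.2 + 1) * ((N x.1 : ℕ) : ℂ) ^ ((x.2 + 1) * (τ * I) : ℂ)

theorem wt_nonneg (σ : ℝ) (x : P × ℕ) : 0 ≤ wt N σ x := by
  unfold wt
  positivity

theorem norm_cpow_im (hN : NormSys N) (p : P) (y : ℝ) (k : ℕ) :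
    ‖((N p : ℕ) : ℂ) ^ ((k + 1) * (y * I) : ℂ)‖ = 1 := by
  have h1 : ((k + 1) * (y * I) : ℂ) = ((((k : ℝ) + 1) * y : ℝ) : ℂ) * I := by push_cast; ring
  rw [Complex.norm_natCast_cpow_of_pos (by have := hN.two_le p; omega), h1]
  simp

theorem norm_coef (hN : NormSys N) {n : ℕ} (S : Finset P) (γ : P → Fin n → ℂ) (τ : ℝ)
    (x : P × ℕ) : ‖coef N S γ τ x‖ = ‖coef N S γ 0 x‖ := by
  unfold coef
  split_ifs
  · rfl
  · rw [norm_mul, norm_mul, norm_cpow_im hN, norm_cpow_im hN]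

theorem L2_coef (hN : NormSys N) {n : ℕ} {S : Finset P} {γ : P → Fin n → ℂ} {w : P × ℕ → ℝ}
    (h : L2 w (coef N S γ 0)) (τ : ℝ) : L2 w (coef N S γ τ) := by
  refine h.congr fun x => ?_
  rw [norm_coef hN S γ τ]

theorem conj_cpow (hN : NormSys N) (p : P) (y : ℝ) (k : ℕ) :
    conj (((N p : ℕ) : ℂ) ^ ((k + 1) * (y * I) : ℂ)) =
      ((N p : ℕ) : ℂ) ^ (-((k + 1) * (y * I)) : ℂ) := by
  have h1 : ((N p : ℕ) : ℂ).arg ≠ Real.pi := by
    rw [Complex.natCast_arg]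
    exact Real.pi_ne_zero.symm
  have h2 := Complex.cpow_conj ((N p : ℕ) : ℂ) ((k + 1) * (y * I) : ℂ) h1
  rw [Complex.conj_natCast] at h2
  rw [← h2]
  congr 1
  simp

/-- shift of the heights -/
theorem coef_shift (hN : NormSys N) {n m : ℕ} (S : Finset P) (γ : P → Fin n → ℂ)
    (δ : P → Fin m → ℂ) (τ τ' : ℝ) (x : P × ℕ) :
    coef N S γ τ x * conj (coef N S δ τ' x) = coef N S γ 0 x * conj (coef N S δ (τ' - τ) x) := by
  unfold coef
  split_ifs with h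
  · simp
  · have hN0 : ((N x.1 : ℕ) : ℂ) ≠ 0 := by
      have := hN.two_le x.1
      exact_mod_cast (by omega : N x.1 ≠ 0)
    rw [map_mul, map_mul, conj_cpow hN, conj_cpow hN]
    have key : ((N x.1 : ℕ) : ℂ) ^ ((x.2 + 1) * (τ * I) : ℂ) *
        ((N x.1 : ℕ) : ℂ) ^ (-((x.2 + 1) * (τ' * I)) : ℂ) =
        ((N x.1 : ℕ) : ℂ) ^ ((x.2 + 1) * ((0 : ℝ) * I) : ℂ) *
          ((N x.1 : ℕ) : ℂ) ^ (-((x.2 + 1) * ((τ' - τ : ℝ) * I)) : ℂ) := by
      rw [← Complex.cpow_add _ _ hN0, ← Complex.cpow_add _ _ hN0]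
      congr 1
      push_cast
      ring
    linear_combination (pw (γ x.1) (x.2 + 1) * conj (pw (δ x.1) (x.2 + 1))) * key

/-- a good factor -/
theorem fac (hN : NormSys N) {n m : ℕ} {S : Finset P} {α : P → Fin n → ℂ} {β : P → Fin m → ℂ}
    {v : P} (hv : v ∉ S) (hb : ∀ j l, ‖α v j‖ * ‖β v l‖ < N v) {τ ε : ℝ} (hε : 0 < ε) :
    HasSum (fun k : ℕ => (wt N (1 + ε) (v, k) : ℂ) *
      (coef N S α 0 (v, k) * conj (coef N S β τ (v, k))))
      (∑ j, ∑ l, -Complex.log (1 - α v j * conj (β v l) *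
        ((N v : ℕ) : ℂ) ^ (-(1 + τ * I + ε : ℂ)))) := by
  set z : ℂ := ((N v : ℕ) : ℂ) ^ (-(1 + τ * I + ε : ℂ)) with hz
  have hNv := hN.two_le v
  have hN0 : ((N v : ℕ) : ℂ) ≠ 0 := by exact_mod_cast (by omega : N v ≠ 0)
  have hNr : (0 : ℝ) < N v := by exact_mod_cast (by omega : 0 < N v)
  have hNr1 : (1 : ℝ) < N v := by exact_mod_cast (by omega : 1 < N v)
  have hzn : ‖z‖ = (N v : ℝ) ^ (-(1 + ε)) := by
    rw [hz, norm_cpowP hN]
    simp
  have hlt : ∀ j l, ‖α v j * conj (β v l) * z‖ < 1 := by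
    intro j l
    rw [norm_mul, norm_mul, Complex.norm_conj, hzn]
    have h1 : (N v : ℝ) ^ (-(1 + ε)) ≤ (N v : ℝ)⁻¹ := by
      rw [← Real.rpow_neg_one]
      exact Real.rpow_le_rpow_of_exponent_le hNr1.le (by linarith)
    calc ‖α v j‖ * ‖β v l‖ * (N v : ℝ) ^ (-(1 + ε)) ≤ ‖α v j‖ * ‖β v l‖ * (N v : ℝ)⁻¹ :=
          mul_le_mul_of_nonneg_left h1 (by positivity)
      _ < N v * (N v : ℝ)⁻¹ := mul_lt_mul_of_pos_right (hb j l) (inv_pos.2 hNr)
      _ = 1 := mul_inv_cancel₀ hNr.ne'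
  have hs : HasSum (fun k : ℕ => ∑ j, ∑ l, (α v j * conj (β v l) * z) ^ (k + 1) / (k + 1))
      (∑ j, ∑ l, -Complex.log (1 - α v j * conj (β v l) * z)) :=
    hasSum_sum fun j _ => hasSum_sum fun l _ =>
      Complex.hasSum_taylorSeries_neg_log' (hlt j l)
  have he : (fun k : ℕ => (wt N (1 + ε) (v, k) : ℂ) *
      (coef N S α 0 (v, k) * conj (coef N S β τ (v, k)))) =
      fun k : ℕ => ∑ j, ∑ l, (α v j * conj (β v l) * z) ^ (k + 1) / ((k : ℂ) + 1) := by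
    funext k
    have h1 : ∑ j, ∑ l, (α v j * conj (β v l) * z) ^ (k + 1) / ((k : ℂ) + 1) =
        (pw (α v) (k + 1) * conj (pw (β v) (k + 1))) * (z ^ (k + 1) / (k + 1)) := by
      unfold pw
      rw [map_sum, Finset.sum_mul_sum, Finset.sum_mul]
      refine Finset.sum_congr rfl fun j _ => ?_
      rw [Finset.sum_mul]
      refine Finset.sum_congr rfl fun l _ => ?_
      rw [map_pow, mul_pow, mul_pow]
      ring
    have h2 : z ^ (k + 1) = (((N v : ℝ) ^ (-((k + 1) * (1 + ε)) : ℝ) : ℝ) : ℂ) *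
        (((N v : ℕ) : ℂ) ^ ((k + 1) * ((0 : ℝ) * I) : ℂ) *
          ((N v : ℕ) : ℂ) ^ (-((k + 1) * (τ * I)) : ℂ)) := by
      rw [Complex.ofReal_cpow hNr.le, hz, ← Complex.cpow_nat_mul]
      push_cast
      rw [← Complex.cpow_add _ _ hN0, ← Complex.cpow_add _ _ hN0]
      congr 1
      push_cast
      ring
    rw [h1, h2]
    unfold wt coef
    simp only
    rw [if_neg hv, if_neg hv, map_mul, conj_cpow hN]
    push_cast
    ring
  rw [he]
  exact hs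

end Pool.Agent.Y792.FL
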