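import Pool.Agent.Y792.FL.Prod

/-! The size of the Euler product. -/

set_option autoImplicit false

namespace Pool.Agent.Y792.FL

open Complex Filter Topology ComplexConjugate Pool.Agent.W540.BE Pool.Agent.H341R2 Polynomial

set_option linter.unusedSectionVars false

variable {P : Type*} [DecidableEq P] {N : P → ℕ}

/-- the Euler product -/
theorem euler_eq (hN : NormSys N) {n m : ℕ} {S : Finset P} {α : P → Fin n → ℂ}
    {β : P → Fin m → ℂ} (hb : ∀ v ∉ S, ∀ j l, ‖α v j‖ * ‖β v l‖ < N v) {ε : ℝ} (hε : 0 < ε)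
    (hα : L2 (wt N (1 + ε)) (coef N S α 0)) (hβ : L2 (wt N (1 + ε)) (coef N S β 0)) (τ : ℝ)
    (B : P → ℂ[X]) (hB : ∀ v ∉ S, ∀ z : ℂ, (B v).eval z =
      ∏ j, ∏ l, (1 - α v j * conj (β v l) * z)) :
    ∏' v, ((B v).eval (((N v : ℕ) : ℂ) ^ (-(1 + τ * I + ε : ℂ))))⁻¹ =
      (∏ v ∈ S, ((B v).eval (((N v : ℕ) : ℂ) ^ (-(1 + τ * I + ε : ℂ))))⁻¹) *
        cexp (∑' x, (wt N (1 + ε) x : ℂ) * (coef N S α 0 x * conj (coef N S β τ x))) := by
  classical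
  set f : P × ℕ → ℂ := fun x => (wt N (1 + ε) x : ℂ) *
    (coef N S α 0 x * conj (coef N S β τ x)) with hf
  have hsf : Summable f := sum_cpx (fun x => wt_nonneg _ x) hα (L2_coef hN hβ τ)
  set G : P → ℂ := fun v => ∑' k, f (v, k) with hG
  have hsG : Summable G := hsf.prod
  have hG0 : ∀ v ∈ S, G v = 0 := by
    intro v hv
    rw [hG]
    simp only [hf, coef, hv, if_true]
    simp
  have hgood : ∀ v, v ∉ S → cexp (G v) =
      ((B v).eval (((N v : ℕ) : ℂ) ^ (-(1 + τ * I + ε : ℂ))))⁻¹ := by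
    intro v hv
    have h1 := fac hN hv (hb v hv) (τ := τ) hε
    have h2 : G v = _ := h1.tsum_eq
    rw [h2, hB v hv, Complex.exp_sum, ← Finset.prod_inv_distrib]
    refine Finset.prod_congr rfl fun j _ => ?_
    rw [Complex.exp_sum, ← Finset.prod_inv_distrib]
    refine Finset.prod_congr rfl fun l _ => ?_
    rw [Complex.exp_neg, Complex.exp_log]
    intro h0
    have h3 : ‖α v j * conj (β v l) * ((N v : ℕ) : ℂ) ^ (-(1 + τ * I + ε : ℂ))‖ = 1 := by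
      have : α v j * conj (β v l) * ((N v : ℕ) : ℂ) ^ (-(1 + τ * I + ε : ℂ)) = 1 := by
        linear_combination -h0
      rw [this, norm_one]
    have hNv := hN.two_le v
    have hNr : (0 : ℝ) < N v := by exact_mod_cast (by omega : 0 < N v)
    have hNr1 : (1 : ℝ) < N v := by exact_mod_cast (by omega : 1 < N v)
    rw [norm_mul, norm_mul, Complex.norm_conj, norm_cpowP hN] at h3
    have h4 : (-(1 + τ * I + ε : ℂ)).re = -(1 + ε) := by simp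
    have h5 : (N v : ℝ) ^ (-(1 + τ * I + ε : ℂ).re) ≤ (N v : ℝ)⁻¹ := by
      rw [← Real.rpow_neg_one]
      refine Real.rpow_le_rpow_of_exponent_le hNr1.le ?_
      simp
      linarith
    have h6 : ‖α v j‖ * ‖β v l‖ * (N v : ℝ) ^ (-(1 + τ * I + ε : ℂ).re) < 1 := by
      calc ‖α v j‖ * ‖β v l‖ * (N v : ℝ) ^ (-(1 + τ * I + ε : ℂ).re) ≤
            ‖α v j‖ * ‖β v l‖ * (N v : ℝ)⁻¹ := mul_le_mul_of_nonneg_left h5 (by positivity)
        _ < N v * (N v : ℝ)⁻¹ := mul_lt_mul_of_pos_right (hb v hv j l) (inv_pos.2 hNr)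
        _ = 1 := mul_inv_cancel₀ hNr.ne'
    linarith
  have hfin : {v : P | ¬ v ∉ S}.Finite := by
    have : {v : P | ¬ v ∉ S} = (S : Set P) := by
      ext v
      simp
    rw [this]
    exact S.finite_toSet
  have hS : hfin.toFinset = S := by
    ext v
    simp
  have h0 : (fun v => if v ∉ S then G v else 0) = G := by
    funext v
    by_cases h : v ∈ S
    · rw [if_neg (not_not.2 h), hG0 v h]
    · rw [if_pos h]
  have h1 := tprod_splitP hfin G (fun v => ((B v).eval (((N v : ℕ) : ℂ) ^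
    (-(1 + τ * I + ε : ℂ))))⁻¹) (by rw [h0]; exact hsG)
  rw [h0, hS] at h1
  have h2 : ∑' v, G v = ∑' x, f x := (hsf.tsum_prod).symm
  rw [h2] at h1
  rw [← h1]
  refine tprod_congr fun v => ?_
  by_cases h : v ∈ S
  · rw [if_neg (not_not.2 h)]
  · rw [if_pos h, hgood v h]

/-- **The size of the Euler product.** -/
theorem size_bl (hN : NormSys N) {n m : ℕ} {S : Finset P} {α : P → Fin n → ℂ}
    {β : P → Fin m → ℂ} (hb : ∀ v ∉ S, ∀ j l, ‖α v j‖ * ‖β v l‖ < N v)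
    (hα : ∀ ε : ℝ, 0 < ε → L2 (wt N (1 + ε)) (coef N S α 0))
    (hβ : ∀ ε : ℝ, 0 < ε → L2 (wt N (1 + ε)) (coef N S β 0)) (τ : ℝ)
    (B : P → ℂ[X]) (hB : ∀ v ∉ S, ∀ z : ℂ, (B v).eval z =
      ∏ j, ∏ l, (1 - α v j * conj (β v l) * z))
    (hB0 : ∀ v ∈ S, (B v).eval (((N v : ℕ) : ℂ) ^ (-(1 + τ * I : ℂ))) ≠ 0) (L : ℂ → ℂ)
    (hL : ∀ s : ℂ, 1 < s.re → L s = ∏' v, ((B v).eval (((N v : ℕ) : ℂ) ^ (-s)))⁻¹) :
    (∀ᶠ ε : ℝ in 𝓝[>] 0, L (1 + τ * I + ε) ≠ 0) ∧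
    Tendsto (fun ε : ℝ => Bl (wt N (1 + ε)) (coef N S α 0) (coef N S β τ) / lg ε -
      Real.log ‖L (1 + τ * I + ε)‖ / Real.log (1 / ε)) (𝓝[>] 0) (𝓝 0) := by
  classical
  have hcont : ∀ v : P, Tendsto (fun ε : ℝ => (B v).eval (((N v : ℕ) : ℂ) ^
      (-(1 + τ * I + ε : ℂ)))) (𝓝[>] 0) (𝓝 ((B v).eval (((N v : ℕ) : ℂ) ^ (-(1 + τ * I : ℂ))))) := by
    intro v
    have hpc : ((N v : ℕ) : ℂ) ≠ 0 := by
      have := hN.two_le v
      exact_mod_cast (by omega : N v ≠ 0)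
    have h2 : ContinuousAt (fun s : ℂ => ((N v : ℕ) : ℂ) ^ (-s)) (1 + τ * I) :=
      (continuousAt_const_cpow hpc).comp continuousAt_neg
    have h3 : ContinuousAt (fun s : ℂ => (B v).eval (((N v : ℕ) : ℂ) ^ (-s))) (1 + τ * I) :=
      (B v).continuous.continuousAt.comp h2
    exact h3.tendsto.comp (path_tendsto' (1 + τ * I))
  have hSlog : Tendsto (fun ε : ℝ => ∑ v ∈ S, Real.log ‖((B v).eval (((N v : ℕ) : ℂ) ^
      (-(1 + τ * I + ε : ℂ))))⁻¹‖) (𝓝[>] 0) (𝓝 (∑ v ∈ S, Real.log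
        ‖((B v).eval (((N v : ℕ) : ℂ) ^ (-(1 + τ * I : ℂ))))⁻¹‖)) := by
    refine tendsto_finsetSum _ fun v hv => ?_
    have h1 := ((hcont v).inv₀ (hB0 v hv)).norm
    exact h1.log (norm_ne_zero_iff.2 (inv_ne_zero (hB0 v hv)))
  have hne : ∀ᶠ ε : ℝ in 𝓝[>] 0, ∀ v ∈ S, (B v).eval (((N v : ℕ) : ℂ) ^
      (-(1 + τ * I + ε : ℂ))) ≠ 0 := by
    rw [Filter.eventually_all_finset]
    exact fun v hv => (hcont v).eventually_ne (hB0 v hv)
  have hLe : ∀ ε : ℝ, 0 < ε → L (1 + τ * I + ε) =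
      (∏ v ∈ S, ((B v).eval (((N v : ℕ) : ℂ) ^ (-(1 + τ * I + ε : ℂ))))⁻¹) *
        cexp (∑' x, (wt N (1 + ε) x : ℂ) * (coef N S α 0 x * conj (coef N S β τ x))) := by
    intro ε hε
    rw [hL _ (by simp; linarith), euler_eq hN hb hε (hα ε hε) (hβ ε hε) τ B hB]
  have hlog : ∀ᶠ ε : ℝ in 𝓝[>] 0, L (1 + τ * I + ε) ≠ 0 ∧
      Real.log ‖L (1 + τ * I + ε)‖ = (∑ v ∈ S, Real.log ‖((B v).eval (((N v : ℕ) : ℂ) ^
      (-(1 + τ * I + ε : ℂ))))⁻¹‖) + Bl (wt N (1 + ε)) (coef N S α 0) (coef N S β τ) := by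
    filter_upwards [hne, self_mem_nhdsWithin] with ε h1 h2
    have hε : (0 : ℝ) < ε := h2
    have h3 : ∏ v ∈ S, ((B v).eval (((N v : ℕ) : ℂ) ^ (-(1 + τ * I + ε : ℂ))))⁻¹ ≠ 0 :=
      Finset.prod_ne_zero_iff.2 fun v hv => inv_ne_zero (h1 v hv)
    rw [hLe ε hε]
    refine ⟨mul_ne_zero h3 (Complex.exp_ne_zero _), ?_⟩
    rw [norm_mul, Real.log_mul (norm_ne_zero_iff.2 h3) (norm_ne_zero_iff.2
      (Complex.exp_ne_zero _)), Complex.norm_exp, Real.log_exp, norm_prod,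
      Real.log_prod (fun v hv => norm_ne_zero_iff.2 (inv_ne_zero (h1 v hv))),
      Bl_eq (fun x => wt_nonneg _ x) (hα ε hε) (L2_coef hN (hβ ε hε) τ)]
  refine ⟨hlog.mono fun ε h => h.1, ?_⟩
  have h1 := (hSlog.div_atTop lg_tendsto).neg
  rw [neg_zero] at h1
  refine h1.congr' ?_
  filter_upwards [hlog] with ε h
  rw [h.2]
  unfold lg
  ring

end Pool.Agent.Y792.FL
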