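import Pool.Agent.TH553.RS.Mean

/-! Weighted sums over prime powers: expansion of a mean square and the product formula. -/

set_option autoImplicit false

namespace Pool.Agent.Y792.FL

open Complex Filter Topology ComplexConjugate Pool.Agent.W540.BE Pool.Agent.H341R2 Polynomial

set_option linter.unusedSectionVars false

section
variable {X : Type*}

/-- square summable with weights `w` -/
def L2 (w : X → ℝ) (f : X → ℂ) : Prop := Summable fun x => w x * ‖f x‖ ^ 2

/-- the weighted sum of squares -/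
noncomputable def Q (w : X → ℝ) (f : X → ℂ) : ℝ := ∑' x, w x * ‖f x‖ ^ 2

/-- the weighted inner product -/
noncomputable def Bl (w : X → ℝ) (f g : X → ℂ) : ℝ := ∑' x, w x * (f x * conj (g x)).re

variable {w : X → ℝ} (hw : ∀ x, 0 ≤ w x)

include hw

theorem Q_nonneg (f : X → ℂ) : 0 ≤ Q w f := tsum_nonneg fun x => mul_nonneg (hw x) (sq_nonneg _)

theorem sum_norm {f g : X → ℂ} (hf : L2 w f) (hg : L2 w g) :
    Summable fun x => w x * (‖f x‖ * ‖g x‖) := by
  refine Summable.of_nonneg_of_le (fun x => mul_nonneg (hw x) (by positivity)) (fun x => ?_)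
    (Summable.add hf hg)
  rw [← mul_add]
  refine mul_le_mul_of_nonneg_left ?_ (hw x)
  nlinarith [sq_nonneg (‖f x‖ - ‖g x‖), sq_nonneg (‖f x‖), sq_nonneg (‖g x‖)]

theorem sum_cpx {f g : X → ℂ} (hf : L2 w f) (hg : L2 w g) :
    Summable fun x => (w x : ℂ) * (f x * conj (g x)) := by
  refine Summable.of_norm_bounded (sum_norm hw hf hg) fun x => ?_
  rw [norm_mul, norm_mul, Complex.norm_real, Real.norm_eq_abs, abs_of_nonneg (hw x),
    Complex.norm_conj]

theorem sum_bl {f g : X → ℂ} (hf : L2 w f) (hg : L2 w g) :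
    Summable fun x => w x * (f x * conj (g x)).re := by
  have h := Complex.reCLM.summable (sum_cpx hw hf hg)
  refine h.congr fun x => ?_
  simp only [Complex.reCLM_apply]
  rw [Complex.re_ofReal_mul]

theorem Bl_eq {f g : X → ℂ} (hf : L2 w f) (hg : L2 w g) :
    Bl w f g = (∑' x, (w x : ℂ) * (f x * conj (g x))).re := by
  rw [Complex.re_tsum (sum_cpx hw hf hg)]
  exact tsum_congr fun x => (Complex.re_ofReal_mul _ _).symm

theorem L2.add {f g : X → ℂ} (hf : L2 w f) (hg : L2 w g) : L2 w fun x => f x + g x := by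
  refine Summable.of_nonneg_of_le (fun x => mul_nonneg (hw x) (sq_nonneg _)) (fun x => ?_)
    ((Summable.add hf hg).mul_left 2)
  have h1 := norm_add_le (f x) (g x)
  have h2 : ‖f x + g x‖ ^ 2 ≤ 2 * (‖f x‖ ^ 2 + ‖g x‖ ^ 2) := by
    have h3 := pow_le_pow_left₀ (norm_nonneg _) h1 2
    nlinarith [sq_nonneg (‖f x‖ - ‖g x‖)]
  calc w x * ‖f x + g x‖ ^ 2 ≤ w x * (2 * (‖f x‖ ^ 2 + ‖g x‖ ^ 2)) :=
        mul_le_mul_of_nonneg_left h2 (hw x)
    _ = _ := by ring

theorem L2.smul {f : X → ℂ} (hf : L2 w f) (c : ℂ) : L2 w fun x => c * f x := by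
  refine (Summable.mul_left (‖c‖ ^ 2) hf).congr fun x => ?_
  rw [norm_mul]
  ring

theorem L2.sum {κ : Type*} (T : Finset κ) {u : κ → X → ℂ} (hu : ∀ p ∈ T, L2 w (u p)) :
    L2 w fun x => ∑ p ∈ T, u p x := by
  classical
  induction T using Finset.induction_on with
  | empty => simpa [L2] using (summable_zero : Summable fun _ : X => (0 : ℝ))
  | insert a s ha ih =>
    simp only [Finset.sum_insert ha]
    exact L2.add hw (hu a (Finset.mem_insert_self _ _))
      (ih fun p hp => hu p (Finset.mem_insert_of_mem hp))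

/-- the inner product is bounded -/
theorem abs_Bl_le {f g : X → ℂ} (hf : L2 w f) (hg : L2 w g) :
    |Bl w f g| ≤ Q w f + Q w g := by
  unfold Bl Q
  rw [← Real.norm_eq_abs, ← Summable.tsum_add hf hg]
  refine tsum_of_norm_bounded (Summable.add hf hg).hasSum fun x => ?_
  rw [Real.norm_eq_abs, abs_mul, abs_of_nonneg (hw x), ← mul_add]
  refine mul_le_mul_of_nonneg_left ?_ (hw x)
  refine (Complex.abs_re_le_norm _).trans ?_
  rw [norm_mul, Complex.norm_conj]
  nlinarith [sq_nonneg (‖f x‖ - ‖g x‖), sq_nonneg (‖f x‖), sq_nonneg (‖g x‖)]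

/-- expansion of the square -/
theorem Q_expand {κ : Type*} (T : Finset κ) {a : X → ℂ} {u : κ → X → ℂ} (ha : L2 w a)
    (hu : ∀ p ∈ T, L2 w (u p)) (c : κ → ℝ) :
    Q w (fun x => a x + ∑ p ∈ T, (c p : ℂ) * u p x) =
      Q w a + 2 * (∑ p ∈ T, c p * Bl w a (u p)) +
        ∑ p ∈ T, ∑ r ∈ T, (c p * c r) * Bl w (u p) (u r) := by
  have e : ∀ x, w x * ‖a x + ∑ p ∈ T, (c p : ℂ) * u p x‖ ^ 2 =
      (w x * ‖a x‖ ^ 2 + ∑ p ∈ T, (2 * c p) * (w x * (a x * conj (u p x)).re)) +
        ∑ p ∈ T, ∑ r ∈ T, (c p * c r) * (w x * (u p x * conj (u r x)).re) := by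
    intro x
    have h1 : ‖a x + ∑ p ∈ T, (c p : ℂ) * u p x‖ ^ 2 = ‖a x‖ ^ 2 +
        2 * (a x * conj (∑ p ∈ T, (c p : ℂ) * u p x)).re +
        ((∑ p ∈ T, (c p : ℂ) * u p x) * conj (∑ p ∈ T, (c p : ℂ) * u p x)).re := by
      rw [← Complex.normSq_eq_norm_sq, Complex.normSq_add, Complex.normSq_eq_norm_sq,
        Complex.mul_conj, Complex.ofReal_re]
      ring
    have h2 : (a x * conj (∑ p ∈ T, (c p : ℂ) * u p x)).re =
        ∑ p ∈ T, c p * (a x * conj (u p x)).re := by
      rw [map_sum, Finset.mul_sum, Complex.re_sum]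
      refine Finset.sum_congr rfl fun p _ => ?_
      rw [map_mul, Complex.conj_ofReal, ← Complex.re_ofReal_mul]
      congr 1
      ring
    have h3 : ((∑ p ∈ T, (c p : ℂ) * u p x) * conj (∑ p ∈ T, (c p : ℂ) * u p x)).re =
        ∑ p ∈ T, ∑ r ∈ T, (c p * c r) * (u p x * conj (u r x)).re := by
      rw [map_sum, Finset.sum_mul_sum, Complex.re_sum]
      refine Finset.sum_congr rfl fun p _ => ?_
      rw [Complex.re_sum]
      refine Finset.sum_congr rfl fun r _ => ?_
      rw [map_mul, Complex.conj_ofReal, ← Complex.re_ofReal_mul]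
      congr 1
      push_cast
      ring
    rw [h1, h2, h3, mul_add, mul_add, Finset.mul_sum, Finset.mul_sum, Finset.mul_sum]
    congr 1
    · congr 1
      refine Finset.sum_congr rfl fun p _ => ?_
      ring
    · refine Finset.sum_congr rfl fun p _ => ?_
      rw [Finset.mul_sum]
      exact Finset.sum_congr rfl fun r _ => by ring
  have s1 : Summable fun x => ∑ p ∈ T, (2 * c p) * (w x * (a x * conj (u p x)).re) :=
    summable_sum fun p hp => (sum_bl hw ha (hu p hp)).mul_left _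
  have s2 : Summable fun x => ∑ p ∈ T, ∑ r ∈ T, (c p * c r) * (w x * (u p x * conj (u r x)).re) :=
    summable_sum fun p hp => summable_sum fun r hr => (sum_bl hw (hu p hp) (hu r hr)).mul_left _
  have ha' : Summable fun x => w x * ‖a x‖ ^ 2 := ha
  unfold Q
  rw [tsum_congr e, (ha'.add s1).tsum_add s2, ha'.tsum_add s1,
    Summable.tsum_finsetSum fun p hp => (sum_bl hw ha (hu p hp)).mul_left _,
    Summable.tsum_finsetSum fun p hp => summable_sum fun r hr =>
      (sum_bl hw (hu p hp) (hu r hr)).mul_left _]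
  congr 1
  · congr 1
    rw [Finset.mul_sum]
    refine Finset.sum_congr rfl fun p _ => ?_
    rw [tsum_mul_left]
    unfold Bl
    ring
  · refine Finset.sum_congr rfl fun p hp => ?_
    rw [Summable.tsum_finsetSum fun r hr => (sum_bl hw (hu p hp) (hu r hr)).mul_left _]
    exact Finset.sum_congr rfl fun r _ => tsum_mul_left

end

end Pool.Agent.Y792.FL
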